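import Mathlib

/-!
Nonzero vertices of convex corners in the Hermitian matrices give facets of the anti-blocker.
-/

namespace Pool.Agent.Results.MP_59e64e_co.VertexFacet

open Matrix Filter Topology
open scoped ComplexOrder

/-- complex `n × n` matrices -/
abbrev Mat (n : ℕ) := Matrix (Fin n) (Fin n) ℂ

/-- the real vector space of Hermitian complex `n × n` matrices -/
abbrev Herm (n : ℕ) := ↥(selfAdjoint.submodule ℝ (Mat n))

/-- the pairing `(X, Y) ↦ Tr (X Y)` (which is a real number) -/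
noncomputable def pair {n : ℕ} (X Y : Herm n) : ℝ := (Matrix.trace (X.1 * Y.1)).re

/-- the positive semidefinite matrices -/
def PSD (n : ℕ) : Set (Herm n) := {X | X.1.PosSemidef}

/-- convex corners -/
structure IsConvexCorner {n : ℕ} (C : Set (Herm n)) : Prop where
  nonempty : C.Nonempty
  closed : IsClosed C
  convex : Convex ℝ C
  psd : C ⊆ PSD n
  hereditary : ∀ A ∈ C, ∀ B : Herm n, B ∈ PSD n → A - B ∈ PSD n → B ∈ C

/-- the anti-blocker -/
def antiBlocker {n : ℕ} (C : Set (Herm n)) : Set (Herm n) :=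
  {Z | Z ∈ PSD n ∧ ∀ X ∈ C, pair X Z ≤ 1}

/-- the hyperplane `Tr (X Y) = α` -/
def hyper {n : ℕ} (Y : Herm n) (α : ℝ) : Set (Herm n) := {X | pair X Y = α}

/-- `hyper Y α` is a supporting hyperplane of `C` at `T` -/
def IsSupporting {n : ℕ} (C T : Set (Herm n)) (Y : Herm n) (α : ℝ) : Prop :=
  Y ≠ 0 ∧ (∀ X ∈ C, pair X Y ≤ α) ∧ ∀ X ∈ T, pair X Y = α

/-- `X` is a vertex of `C`: a point of `C` on its boundary in the space of Hermitian matrices such
that the supporting hyperplanes of `C` at `X` intersect exactly in `{X}` -/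
def IsVertex {n : ℕ} (C : Set (Herm n)) (X : Herm n) : Prop :=
  X ∈ C ∧ X ∈ frontier C ∧ {W | ∀ Y α, IsSupporting C {X} Y α → W ∈ hyper Y α} = {X}

/-- `F` is a facet of `C`: it is nonempty, cut out of `C` by one supporting hyperplane, contained in
the boundary of `C`, and its affine hull has dimension `n ^ 2 - 1` -/
def IsFacet {n : ℕ} (C F : Set (Herm n)) : Prop :=
  F.Nonempty ∧ (∃ Y α, IsSupporting C F Y α ∧ F = C ∩ hyper Y α) ∧ F ⊆ frontier C ∧
    Module.finrank ℝ (vectorSpan ℝ F) = n ^ 2 - 1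

section mat

open scoped MatrixOrder Matrix.Norms.L2Operator ComplexOrder

theorem exists_sqrt {n : ℕ} {M : Mat n} (h : M.PosSemidef) : ∃ S : Mat n, M = Sᴴ * S := by
  have h0 : 0 ≤ M := Matrix.nonneg_iff_posSemidef.2 h
  obtain ⟨S, hS⟩ := CStarAlgebra.nonneg_iff_eq_star_mul_self.1 h0
  exact ⟨S, hS⟩

theorem herm_bound {n : ℕ} (M : Mat n) (h : M.IsHermitian) :
    ∃ c : ℝ, 0 < c ∧ (c • (1 : Mat n) - M).PosSemidef := by
  refine ⟨‖M‖ + 1, by positivity, ?_⟩
  have := IsSelfAdjoint.le_algebraMap_norm_self (a := M) h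
  rw [Matrix.le_iff, Algebra.algebraMap_eq_smul_one] at this
  have h1 : ((‖M‖ + 1) • (1 : Mat n) - M) = (‖M‖ • (1 : Mat n) - M) + 1 := by
    rw [add_smul, one_smul]; abel
  rw [h1]
  exact this.add Matrix.PosSemidef.one

end mat

open scoped ComplexOrder

theorem psd_smul {n : ℕ} {M : Mat n} (h : M.PosSemidef) {c : ℝ} (hc : 0 ≤ c) :
    (c • M).PosSemidef := by
  have := h.smul (a := (c : ℂ)) (by exact_mod_cast hc)
  have e : (c : ℂ) • M = c • M := by
    ext i j
    simp
  rwa [e] at this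

theorem sandwich_bound {n : ℕ} (X M : Mat n) (hX : X.PosSemidef) (hM : M.IsHermitian) :
    ∃ c : ℝ, 0 < c ∧ (c • X - X * M * X).PosSemidef := by
  obtain ⟨S, hS⟩ := exists_sqrt hX
  have h1 : (S * M * Sᴴ).IsHermitian := by
    rw [Matrix.IsHermitian, conjTranspose_mul, conjTranspose_mul, conjTranspose_conjTranspose, hM.eq,
      mul_assoc]
  obtain ⟨c, hc, h⟩ := herm_bound _ h1
  refine ⟨c, hc, ?_⟩
  have h2 := h.conjTranspose_mul_mul_same S
  have e : Sᴴ * (c • (1 : Mat n) - S * M * Sᴴ) * S = c • X - X * M * X := by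
    rw [hS, mul_sub, sub_mul, Matrix.mul_smul, Matrix.smul_mul, mul_one]
    simp only [mul_assoc]
  rwa [e] at h2

theorem trace_psd {n : ℕ} {D Y : Mat n} (hD : D.PosSemidef) (hY : Y.PosSemidef) :
    0 ≤ (Matrix.trace (D * Y)).re := by
  obtain ⟨S, hS⟩ := exists_sqrt hD
  obtain ⟨T, hT⟩ := exists_sqrt hY
  have e : Matrix.trace (D * Y) = Matrix.trace ((S * Tᴴ)ᴴ * (S * Tᴴ)) := by
    rw [hS, hT, conjTranspose_mul, conjTranspose_conjTranspose, ← mul_assoc,
      Matrix.trace_mul_comm]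
    simp only [mul_assoc]
  rw [e]
  have := (Matrix.posSemidef_conjTranspose_mul_self (S * Tᴴ)).trace_nonneg
  exact (Complex.le_def.1 this).1

theorem trace_psd_zero {n : ℕ} {D Y : Mat n} (hD : D.PosSemidef) (hY : Y.PosSemidef)
    (h : (Matrix.trace (D * Y)).re = 0) : D * Y = 0 := by
  obtain ⟨S, hS⟩ := exists_sqrt hD
  obtain ⟨T, hT⟩ := exists_sqrt hY
  have e : Matrix.trace (D * Y) = Matrix.trace ((S * Tᴴ)ᴴ * (S * Tᴴ)) := by
    rw [hS, hT, conjTranspose_mul, conjTranspose_conjTranspose, ← mul_assoc,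
      Matrix.trace_mul_comm]
    simp only [mul_assoc]
  have h0 := (Matrix.posSemidef_conjTranspose_mul_self (S * Tᴴ)).trace_nonneg
  have h1 : Matrix.trace ((S * Tᴴ)ᴴ * (S * Tᴴ)) = 0 := by
    apply Complex.ext
    · rw [← e]; exact h
    · exact (Complex.le_def.1 h0).2.symm
  rw [Matrix.trace_conjTranspose_mul_self_eq_zero_iff] at h1
  rw [hS, hT]
  calc Sᴴ * S * (Tᴴ * T) = Sᴴ * (S * Tᴴ) * T := by simp only [mul_assoc]
    _ = 0 := by rw [h1]; simp

theorem trace_vec {n : ℕ} (D : Mat n) (x : Fin n → ℂ) :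
    Matrix.trace (D * vecMulVec x (star x)) = star x ⬝ᵥ (D *ᵥ x) := by
  rw [mul_vecMulVec, trace_vecMulVec, dotProduct_comm]

theorem psd_of_trace {n : ℕ} (D : Mat n) (hD : D.IsHermitian)
    (h : ∀ P : Mat n, P.PosSemidef → 0 ≤ (Matrix.trace (D * P)).re) : D.PosSemidef := by
  refine PosSemidef.of_dotProduct_mulVec_nonneg hD fun x => ?_
  have h1 := h _ (Matrix.posSemidef_vecMulVec_self_star x)
  rw [trace_vec] at h1
  have h2 : (star x ⬝ᵥ (D *ᵥ x)).im = 0 := by
    have := hD.im_star_dotProduct_mulVec_self x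
    simpa using this
  rw [Complex.le_def]
  exact ⟨by simpa using h1, by simpa using h2.symm⟩


variable {n : ℕ}

theorem pair_add_left (X Y Z : Herm n) : pair (X + Y) Z = pair X Z + pair Y Z := by
  simp [pair, add_mul]

theorem pair_add_right (X Y Z : Herm n) : pair X (Y + Z) = pair X Y + pair X Z := by
  simp [pair, mul_add]

theorem pair_smul_left (c : ℝ) (X Y : Herm n) : pair (c • X) Y = c * pair X Y := by
  simp [pair]

theorem pair_smul_right (c : ℝ) (X Y : Herm n) : pair X (c • Y) = c * pair X Y := by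
  simp [pair]

theorem pair_sub_right (X Y Z : Herm n) : pair X (Y - Z) = pair X Y - pair X Z := by
  simp [pair, mul_sub]

theorem pair_sub_left (X Y Z : Herm n) : pair (X - Y) Z = pair X Z - pair Y Z := by
  simp [pair, sub_mul]

theorem pair_comm (X Y : Herm n) : pair X Y = pair Y X := by
  simp only [pair]; rw [Matrix.trace_mul_comm]

theorem herm_of (X : Herm n) : X.1.IsHermitian := X.2

theorem compress_psd (C : Set (Herm n)) (hC : IsConvexCorner C) (X : Herm n) (hX : X ∈ C)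
    (Y : Herm n) (hY : ∀ A ∈ C, pair A Y ≤ pair X Y) : (X.1 * Y.1 * X.1).PosSemidef := by
  have hXp : X.1.PosSemidef := hC.psd hX
  have hH : (X.1 * Y.1 * X.1).IsHermitian := by
    rw [Matrix.IsHermitian, conjTranspose_mul, conjTranspose_mul, (herm_of X).eq, (herm_of Y).eq,
      mul_assoc]
  refine PosSemidef.of_dotProduct_mulVec_nonneg hH fun w => ?_
  obtain ⟨M, hM⟩ : ∃ M : Mat n, M = vecMulVec w (star w) := ⟨_, rfl⟩
  have hMp : M.PosSemidef := by rw [hM]; exact Matrix.posSemidef_vecMulVec_self_star w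
  obtain ⟨c, hc, hb⟩ := sandwich_bound X.1 M hXp hMp.isHermitian
  have hXMX : (X.1 * M * X.1).PosSemidef := by
    have := hMp.conjTranspose_mul_mul_same X.1
    rwa [(herm_of X).eq] at this
  have hq : (c⁻¹ • (X.1 * M * X.1)).PosSemidef := psd_smul hXMX (inv_pos.2 hc).le
  let Q : Herm n := ⟨c⁻¹ • (X.1 * M * X.1), hq.isHermitian⟩
  have hB : X - Q ∈ C := by
    apply hC.hereditary X hX
    · show (X.1 - c⁻¹ • (X.1 * M * X.1)).PosSemidef
      have := psd_smul hb (inv_pos.2 hc).le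
      rwa [smul_sub, smul_smul, inv_mul_cancel₀ hc.ne', one_smul] at this
    · show ((X - (X - Q) : Herm n)).1.PosSemidef
      rw [sub_sub_cancel]; exact hq
  have h1 := hY _ hB
  rw [pair_sub_left] at h1
  have h2 : 0 ≤ pair Q Y := by linarith
  have h3 : pair Q Y = c⁻¹ * (star w ⬝ᵥ ((X.1 * Y.1 * X.1) *ᵥ w)).re := by
    have e : pair Q Y = (Matrix.trace ((c⁻¹ • (X.1 * M * X.1)) * Y.1)).re := rfl
    rw [e, Matrix.smul_mul, Matrix.trace_smul, Complex.smul_re, smul_eq_mul, ← trace_vec, ← hM]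
    congr 2
    rw [mul_assoc (X.1 * M), Matrix.trace_mul_comm]
    simp only [mul_assoc]
  have h4 : 0 ≤ (star w ⬝ᵥ ((X.1 * Y.1 * X.1) *ᵥ w)).re := by
    rw [h3] at h2
    exact nonneg_of_mul_nonneg_right h2 (inv_pos.2 hc)
  have h5 : (star w ⬝ᵥ ((X.1 * Y.1 * X.1) *ᵥ w)).im = 0 := by
    have := hH.im_star_dotProduct_mulVec_self w
    simpa using this
  rw [Complex.le_def]
  exact ⟨by simpa using h4, by simpa using h5.symm⟩

theorem key (C : Set (Herm n)) (hC : IsConvexCorner C) (X : Herm n) (hX : X ∈ C)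
    (Y : Herm n) (hY : ∀ A ∈ C, pair A Y ≤ pair X Y) (E Z : Mat n) (hE : E + X.1 * Z = 1)
    (A : Herm n) (hA : A ∈ C) :
    pair A Y - (Matrix.trace (E * A.1 * Eᴴ * Y.1)).re ≤ pair X Y := by
  have hXp : X.1.PosSemidef := hC.psd hX
  have hAp : A.1.PosSemidef := hC.psd hA
  obtain ⟨F, hF⟩ : ∃ F, F = X.1 * Z := ⟨_, rfl⟩
  rw [← hF] at hE
  obtain ⟨T, hT⟩ : ∃ T, T = (Matrix.trace (E * A.1 * Eᴴ * Y.1)).re := ⟨_, rfl⟩
  rw [← hT]
  have hZA : (Z * A.1 * Zᴴ).IsHermitian := (hAp.mul_mul_conjTranspose_same Z).isHermitian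
  obtain ⟨c, hc, hb⟩ := sandwich_bound X.1 _ hXp hZA
  have hFF : X.1 * (Z * A.1 * Zᴴ) * X.1 = F * A.1 * Fᴴ := by
    rw [hF, conjTranspose_mul, (herm_of X).eq]
    simp only [mul_assoc]
  rw [hFF] at hb
  obtain ⟨r, hr⟩ : ∃ r : ℝ, r = 2 * c + 1 := ⟨_, rfl⟩
  have hr0 : 0 < r := by rw [hr]; linarith
  have hr1 : 1 ≤ r := by rw [hr]; linarith
  have hr2 : 2 * c ≤ r * r := by nlinarith
  have hsplit : A.1 = E * A.1 * Eᴴ + E * A.1 * Fᴴ + F * A.1 * Eᴴ + F * A.1 * Fᴴ := by
    have h1 : (E + F) * A.1 * (E + F)ᴴ = A.1 := by rw [hE]; simp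
    calc A.1 = (E + F) * A.1 * (E + F)ᴴ := h1.symm
      _ = _ := by
        rw [conjTranspose_add, add_mul, mul_add, add_mul, add_mul]; abel
  -- the inequality for small s
  have main : ∀ s : ℝ, 0 < s → s ≤ 1 / 2 → s * (r * r) ≤ 1 →
      pair A Y - pair X Y ≤ (1 - r * r * s) * T := by
    intro s hs0 hs1 hs2
    have hPp : ((s - r * r * s * s) • (E * A.1 * Eᴴ)).PosSemidef :=
      psd_smul (hAp.mul_mul_conjTranspose_same E) (by nlinarith)
    let P : Herm n := ⟨(s - r * r * s * s) • (E * A.1 * Eᴴ), hPp.isHermitian⟩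
    have hAs : (1 - s) • X + s • A ∈ C :=
      hC.convex hX hA (by linarith) hs0.le (by ring)
    have hB : ((1 - s) • X + s • A) - P ∈ C := by
      apply hC.hereditary _ hAs
      · show ((1 - s) • X.1 + s • A.1 - (s - r * r * s * s) • (E * A.1 * Eᴴ)).PosSemidef
        have e1 : ((1 - s - c * (r * r)⁻¹) • X.1).PosSemidef := by
          apply psd_smul hXp
          have : c * (r * r)⁻¹ ≤ 1 / 2 := by
            rw [← div_eq_mul_inv, div_le_iff₀ (by positivity)]
            linarith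
          linarith
        have e2 : ((r * r)⁻¹ • (c • X.1 - F * A.1 * Fᴴ)).PosSemidef :=
          psd_smul hb (by positivity)
        have e3 : (((r * s) • E + r⁻¹ • F) * A.1 * ((r * s) • E + r⁻¹ • F)ᴴ).PosSemidef :=
          hAp.mul_mul_conjTranspose_same _
        have e4 : (s • (F * A.1 * Fᴴ)).PosSemidef :=
          psd_smul (hAp.mul_mul_conjTranspose_same F) hs0.le
        have e5 := ((e1.add e2).add e3).add e4
        have e6 : (1 - s) • X.1 + s • A.1 - (s - r * r * s * s) • (E * A.1 * Eᴴ) =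
            (1 - s - c * (r * r)⁻¹) • X.1 + (r * r)⁻¹ • (c • X.1 - F * A.1 * Fᴴ) +
            ((r * s) • E + r⁻¹ • F) * A.1 * ((r * s) • E + r⁻¹ • F)ᴴ + s • (F * A.1 * Fᴴ) := by
          have hs' : s • A.1 = s • (E * A.1 * Eᴴ + E * A.1 * Fᴴ + F * A.1 * Eᴴ + F * A.1 * Fᴴ) := by
            rw [← hsplit]
          rw [hs', conjTranspose_add, conjTranspose_smul, conjTranspose_smul]
          simp only [star_trivial, add_mul, mul_add, Matrix.smul_mul, Matrix.mul_smul, smul_add,
            smul_smul, smul_sub]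
          have f1 : r⁻¹ * (r * s) = s := by field_simp
          have f2 : r * s * r⁻¹ = s := by field_simp
          rw [f1, f2]
          have f3 : r⁻¹ * r⁻¹ = (r * r)⁻¹ := by field_simp
          rw [f3]
          module
        rw [e6]; exact e5
      · show (((1 - s) • X + s • A - ((1 - s) • X + s • A - P) : Herm n)).1.PosSemidef
        rw [sub_sub_cancel]; exact hPp
    have h1 := hY _ hB
    rw [pair_sub_left, pair_add_left, pair_smul_left, pair_smul_left] at h1
    have h2 : pair P Y = (s - r * r * s * s) * T := by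
      have e : pair P Y = (Matrix.trace (((s - r * r * s * s) • (E * A.1 * Eᴴ)) * Y.1)).re := rfl
      rw [e, Matrix.smul_mul, Matrix.trace_smul, Complex.smul_re, smul_eq_mul, hT]
    rw [h2] at h1
    have h3 : s * (pair A Y - pair X Y) ≤ s * ((1 - r * r * s) * T) := by nlinarith
    exact le_of_mul_le_mul_left h3 hs0
  by_contra hcon
  push Not at hcon
  obtain ⟨d, hd⟩ : ∃ d, d = pair A Y - T - pair X Y := ⟨_, rfl⟩
  have hd0 : 0 < d := by rw [hd]; linarith
  have hrr : 0 < r * r := by positivity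
  obtain ⟨s, hs⟩ : ∃ s : ℝ, s = min (min (1/2) (1/(r*r))) (d / (2 * (r * r) * (|T| + 1))) := ⟨_, rfl⟩
  have hT1 : 0 < |T| + 1 := by positivity
  have hs0 : 0 < s := by
    rw [hs]; apply lt_min (lt_min (by norm_num) (by positivity)) (by positivity)
  have hs1 : s ≤ 1/2 := by rw [hs]; exact (min_le_left _ _).trans (min_le_left _ _)
  have hs2 : s * (r * r) ≤ 1 := by
    have : s ≤ 1/(r*r) := by rw [hs]; exact (min_le_left _ _).trans (min_le_right _ _)
    rwa [le_div_iff₀ hrr] at this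
  have hs3 : s * (2 * (r * r) * (|T| + 1)) ≤ d := by
    have : s ≤ d / (2 * (r * r) * (|T| + 1)) := by rw [hs]; exact min_le_right _ _
    rwa [le_div_iff₀ (by positivity)] at this
  have h1 := main s hs0 hs1 hs2
  have h2 : -(r * r * s * T) ≤ r * r * s * |T| := by
    have := neg_abs_le T
    have h3 : 0 ≤ r * r * s := by positivity
    nlinarith
  have h4 : 0 < r * r * s := by positivity
  nlinarith [abs_nonneg T]


theorem exists_Z (X Y : Mat n) (hX : X.IsHermitian) (hY : Y.IsHermitian)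
    (hreg : ∀ w, (X * Y * X) *ᵥ w = 0 → X *ᵥ w = 0) : ∃ Z : Mat n, X * Y * X * Z = X * Y := by
  have hT : (X * Y * X).IsHermitian := by
    rw [Matrix.IsHermitian, conjTranspose_mul, conjTranspose_mul, hX.eq, hY.eq, mul_assoc]
  have hsym := isSymmetric_toEuclideanLin_iff.2 hT
  have hrange : (toEuclideanLin (X * Y * X)).range = ((toEuclideanLin (X * Y * X)).ker)ᗮ := by
    rw [← hsym.orthogonal_range, Submodule.orthogonal_orthogonal]
  have hcol : ∀ j, ∃ z : EuclideanSpace ℂ (Fin n),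
      toEuclideanLin (X * Y * X) z = WithLp.toLp 2 (fun i => (X * Y) i j) := by
    intro j
    have : WithLp.toLp 2 (fun i => (X * Y) i j) ∈ (toEuclideanLin (X * Y * X)).range := by
      rw [hrange, Submodule.mem_orthogonal]
      intro u hu
      rw [LinearMap.mem_ker] at hu
      have hu' : (X * Y * X) *ᵥ (WithLp.ofLp u) = 0 := by
        have := congrArg WithLp.ofLp hu
        simpa [mul_assoc] using this
      have hXu := hreg _ hu'
      have h1 : star (WithLp.ofLp u) ᵥ* X = 0 := by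
        have := congrArg star hXu
        rw [star_mulVec, hX.eq, star_zero] at this
        exact this
      have h2 : (fun i => (X * Y) i j) = (X * Y) *ᵥ (Pi.single j 1) := by
        funext i
        simp
      rw [EuclideanSpace.inner_eq_star_dotProduct, dotProduct_comm]
      show star (WithLp.ofLp u) ⬝ᵥ (fun i => (X * Y) i j) = 0
      rw [h2, ← mulVec_mulVec, dotProduct_mulVec, h1, zero_dotProduct]
    obtain ⟨z, hz⟩ := this
    exact ⟨z, hz⟩
  choose z hz using hcol
  refine ⟨Matrix.of (fun i j => z j i), ?_⟩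
  ext i j
  have := congrFun (congrArg WithLp.ofLp (hz j)) i
  simp only [toEuclideanLin_apply] at this
  rw [← this]
  rw [Matrix.mul_apply]
  rfl

theorem pair_self_eq_zero (D : Herm n) (h : pair D D = 0) : D = 0 := by
  have h1 : Matrix.trace ((D.1)ᴴ * D.1) = 0 := by
    have h0 := (Matrix.posSemidef_conjTranspose_mul_self D.1).trace_nonneg
    apply Complex.ext
    · rw [(herm_of D).eq]; exact h
    · exact (Complex.le_def.1 h0).2.symm
  rw [Matrix.trace_conjTranspose_mul_self_eq_zero_iff] at h1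
  exact Subtype.ext h1

/-- the pairing as a bilinear map -/
noncomputable def pairL : Herm n →ₗ[ℝ] Herm n →ₗ[ℝ] ℝ :=
  LinearMap.mk₂ ℝ pair pair_add_left pair_smul_left pair_add_right pair_smul_right

theorem exists_rep (f : Herm n →ₗ[ℝ] ℝ) : ∃ D : Herm n, ∀ Y, f Y = pair D Y := by
  have hinj : Function.Injective (pairL (n := n)) := by
    rw [← LinearMap.ker_eq_bot, LinearMap.ker_eq_bot']
    intro D hD
    have := LinearMap.congr_fun hD D
    exact pair_self_eq_zero D this
  have hsurj := (LinearMap.injective_iff_surjective_of_finrank_eq_finrank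
    (Subspace.dual_finrank_eq (K := ℝ) (V := Herm n)).symm).1 hinj
  obtain ⟨D, hD⟩ := hsurj f
  exact ⟨D, fun Y => by rw [← hD]; rfl⟩

section sep

variable {V : Type} [AddCommGroup V] [Module ℝ V] [FiniteDimensional ℝ V]

/-- convex cones containing zero -/
structure IsCone (N : Set V) : Prop where
  zero : (0 : V) ∈ N
  add : ∀ x ∈ N, ∀ y ∈ N, x + y ∈ N
  smul : ∀ x ∈ N, ∀ t : ℝ, 0 ≤ t → t • x ∈ N

/-- an identification with Euclidean space -/
noncomputable def eqv : V ≃ₗ[ℝ] EuclideanSpace ℝ (Fin (Module.finrank ℝ V)) :=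
  LinearEquiv.ofFinrankEq V _ (by simp)

theorem cone_convex (N : Set V) (hN : IsCone N) : Convex ℝ (eqv '' N) := by
  rintro _ ⟨x, hx, rfl⟩ _ ⟨y, hy, rfl⟩ a b ha hb _
  refine ⟨a • x + b • y, hN.add _ (hN.smul x hx a ha) _ (hN.smul y hy b hb), ?_⟩
  rw [map_add, map_smul, map_smul]

theorem int_nonempty (N : Set V) (hN : IsCone N) (hs : Submodule.span ℝ N = ⊤) :
    (interior (eqv '' N)).Nonempty := by
  rw [(cone_convex N hN).interior_nonempty_iff_affineSpan_eq_top]
  have h0 : (0 : EuclideanSpace ℝ (Fin (Module.finrank ℝ V))) ∈ eqv '' N :=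
    ⟨0, hN.zero, map_zero _⟩
  rw [AffineSubspace.affineSpan_eq_top_iff_vectorSpan_eq_top_of_nonempty ℝ _ _ ⟨_, h0⟩,
    vectorSpan_eq_span_vsub_set_right ℝ h0]
  have : (fun x : EuclideanSpace ℝ (Fin (Module.finrank ℝ V)) => x -ᵥ (0 : EuclideanSpace ℝ (Fin (Module.finrank ℝ V)))) ''
      (eqv '' N) = eqv '' N := by
    ext x
    simp
  rw [this]
  have h2 : Submodule.span ℝ (eqv '' N) = Submodule.map (eqv (V := V)).toLinearMap (Submodule.span ℝ N) := by
    rw [Submodule.map_span]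
    rfl
  rw [h2, hs, Submodule.map_top, LinearMap.range_eq_top]
  exact (eqv (V := V)).surjective

theorem int_core (N : Set V) (y : EuclideanSpace ℝ (Fin (Module.finrank ℝ V)))
    (hy : y ∈ interior (eqv '' N)) (H : V) :
    ∃ ε : ℝ, 0 < ε ∧ ∀ t : ℝ, |t| ≤ ε → (eqv.symm y : V) + t • H ∈ N := by
  have hc : ContinuousAt (fun t : ℝ => y + t • (eqv H)) 0 := by fun_prop
  have h0 : interior (eqv '' N) ∈ 𝓝 ((fun t : ℝ => y + t • (eqv H)) 0) := by
    simp only [zero_smul, add_zero]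
    exact isOpen_interior.mem_nhds hy
  have h1 := hc.preimage_mem_nhds h0
  rw [Metric.mem_nhds_iff] at h1
  obtain ⟨ε, hε, h⟩ := h1
  refine ⟨ε / 2, by positivity, fun t ht => ?_⟩
  have h2 : t ∈ Metric.ball (0:ℝ) ε := by
    rw [Metric.mem_ball, Real.dist_eq, sub_zero]
    linarith
  have h3 := interior_subset (h h2)
  obtain ⟨z, hz, hz'⟩ := h3
  have : (eqv.symm y : V) + t • H = z := by
    apply (eqv (V := V)).injective
    rw [map_add, map_smul, LinearEquiv.apply_symm_apply]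
    exact hz'.symm
  rw [this]; exact hz

theorem core_exists (N : Set V) (hN : IsCone N) (hs : Submodule.span ℝ N = ⊤) :
    ∃ Y : V, ∀ H : V, ∃ ε : ℝ, 0 < ε ∧ ∀ t : ℝ, |t| ≤ ε → Y + t • H ∈ N := by
  obtain ⟨y, hy⟩ := int_nonempty N hN hs
  exact ⟨eqv.symm y, fun H => int_core N y hy H⟩

theorem sep (N P : Set V) (hN : IsCone N) (hP : IsCone P) (hNs : Submodule.span ℝ N = ⊤)
    (hPs : Submodule.span ℝ P = ⊤)
    (h : ∀ f : V →ₗ[ℝ] ℝ, (∀ y ∈ N, f y ≤ 0) → (∀ y ∈ P, 0 ≤ f y) → f = 0) :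
    ∃ Y : V, (∀ H : V, ∃ ε : ℝ, 0 < ε ∧ ∀ t : ℝ, |t| ≤ ε → Y + t • H ∈ N) ∧
      (∀ H : V, ∃ ε : ℝ, 0 < ε ∧ ∀ t : ℝ, |t| ≤ ε → Y + t • H ∈ P) := by
  by_cases hd : (interior (eqv '' N) ∩ interior (eqv '' P)).Nonempty
  · obtain ⟨y, h1, h2⟩ := hd
    exact ⟨eqv.symm y, fun H => int_core N y h1 H, fun H => int_core P y h2 H⟩
  · exfalso
    have hdis : Disjoint (interior (eqv '' N)) (interior (eqv '' P)) := by
      rw [Set.disjoint_iff_inter_eq_empty]
      exact Set.not_nonempty_iff_eq_empty.1 hd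
    have cN := cone_convex N hN
    have cP := cone_convex P hP
    obtain ⟨f, u, h1, h2⟩ := geometric_hahn_banach_open_open cN.interior isOpen_interior
      cP.interior isOpen_interior hdis
    have nN := int_nonempty N hN hNs
    have nP := int_nonempty P hP hPs
    have k1 : ∀ y ∈ N, f (eqv y) ≤ u := by
      intro y hy
      have hcl : eqv y ∈ closure (interior (eqv '' N)) := by
        rw [cN.closure_interior_eq_closure_of_nonempty_interior nN]
        exact subset_closure ⟨y, hy, rfl⟩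
      have : IsClosed {x | f x ≤ u} := isClosed_le f.continuous continuous_const
      exact closure_minimal (fun x hx => (h1 x hx).le) this hcl
    have k2 : ∀ y ∈ P, u ≤ f (eqv y) := by
      intro y hy
      have hcl : eqv y ∈ closure (interior (eqv '' P)) := by
        rw [cP.closure_interior_eq_closure_of_nonempty_interior nP]
        exact subset_closure ⟨y, hy, rfl⟩
      have : IsClosed {x | u ≤ f x} := isClosed_le continuous_const f.continuous
      exact closure_minimal (fun x hx => (h2 x hx).le) this hcl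
    have u0 : 0 ≤ u := by have := k1 0 hN.zero; simpa using this
    have u0' : u ≤ 0 := by have := k2 0 hP.zero; simpa using this
    have hu : u = 0 := le_antisymm u0' u0
    subst hu
    have hf := h (f.toLinearMap ∘ₗ (eqv (V := V)).toLinearMap) (fun y hy => k1 y hy)
      (fun y hy => k2 y hy)
    obtain ⟨a, ha⟩ := nN
    have h3 := h1 a ha
    have h4 := LinearMap.congr_fun hf (eqv.symm a)
    simp at h4
    rw [h4] at h3
    exact lt_irrefl _ h3

end sep

theorem span_psd : Submodule.span ℝ (PSD n) = ⊤ := by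
  rw [eq_top_iff]
  intro H _
  obtain ⟨c, hc, hb⟩ := herm_bound (-H.1) (herm_of H).neg
  have h1 : (c • (1 : Mat n)).PosSemidef := psd_smul Matrix.PosSemidef.one hc.le
  let I : Herm n := ⟨c • (1 : Mat n), h1.isHermitian⟩
  have h2 : H + I ∈ PSD n := by
    show (H.1 + c • (1 : Mat n)).PosSemidef
    rw [sub_neg_eq_add, add_comm] at hb
    exact hb
  have h3 : H = (H + I) - I := by abel
  rw [h3]
  exact Submodule.sub_mem _ (Submodule.subset_span h2) (Submodule.subset_span h1)

theorem cone_psd : IsCone (PSD n) :=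
  ⟨Matrix.PosSemidef.zero, fun _ hx _ hy => Matrix.PosSemidef.add hx hy,
    fun _ hx _ ht => psd_smul hx ht⟩

/-- the normal cone -/
def NC (C : Set (Herm n)) (X : Herm n) : Set (Herm n) := {Y | ∀ A ∈ C, pair A Y ≤ pair X Y}

theorem cone_NC (C : Set (Herm n)) (X : Herm n) : IsCone (NC C X) := by
  refine ⟨fun A _ => by simp [pair], fun Y hY Z hZ A hA => ?_, fun Y hY t ht A hA => ?_⟩
  · rw [pair_add_right, pair_add_right]; exact add_le_add (hY A hA) (hZ A hA)
  · rw [pair_smul_right, pair_smul_right]; exact mul_le_mul_of_nonneg_left (hY A hA) ht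

theorem span_NC (C : Set (Herm n)) (X : Herm n) (hV : IsVertex C X) :
    Submodule.span ℝ (NC C X) = ⊤ := by
  by_contra hne
  obtain ⟨f, hf0, hf⟩ := Submodule.exists_le_ker_of_lt_top _ (lt_top_iff_ne_top.2 hne)
  obtain ⟨D, hD⟩ := exists_rep f
  have hmem : X + D ∈ {W | ∀ Y α, IsSupporting C {X} Y α → W ∈ hyper Y α} := by
    rintro Y α ⟨_, h1, h2⟩
    have h3 := h2 X rfl
    have h4 : Y ∈ NC C X := fun A hA => by rw [h3]; exact h1 A hA
    have h5 : f Y = 0 := hf (Submodule.subset_span h4)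
    show pair (X + D) Y = α
    rw [pair_add_left, h3, ← hD, h5, add_zero]
  rw [hV.2.2] at hmem
  have h6 : X + D = X := hmem
  have hD0 : D = 0 := by simpa using h6
  apply hf0
  ext Y
  rw [hD, hD0]
  simp [pair]

/-- in the relative interior of the normal cone the compression to the range of `X` is
nondegenerate -/
theorem regular (C : Set (Herm n)) (hC : IsConvexCorner C) (X : Herm n) (hX : X ∈ C) (Y : Herm n)
    (hY : ∀ H : Herm n, ∃ ε : ℝ, 0 < ε ∧ Y + ε • H ∈ NC C X) (w : Fin n → ℂ)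
    (hw : (X.1 * Y.1 * X.1) *ᵥ w = 0) : X.1 *ᵥ w = 0 := by
  by_contra hne
  obtain ⟨x, hx⟩ : ∃ x, x = X.1 *ᵥ w := ⟨_, rfl⟩
  rw [← hx] at hne
  have hMp := Matrix.posSemidef_vecMulVec_self_star x
  let M : Herm n := ⟨vecMulVec x (star x), hMp.isHermitian⟩
  obtain ⟨ε, hε, h⟩ := hY (-M)
  have h1 := compress_psd C hC X hX _ h
  have h2 := h1.dotProduct_mulVec_nonneg w
  have h3 : (Y + ε • (-M)).1 = Y.1 - ε • vecMulVec x (star x) := by
    show Y.1 + ε • (-(vecMulVec x (star x))) = _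
    rw [smul_neg, sub_eq_add_neg]
  rw [h3] at h2
  have hwX : star w ᵥ* X.1 = star x := by
    rw [hx, star_mulVec, (herm_of X).eq]
  have h4 : star w ⬝ᵥ ((X.1 * (Y.1 - ε • vecMulVec x (star x)) * X.1) *ᵥ w) =
      - (ε : ℂ) * ((star x ⬝ᵥ x) * (star x ⬝ᵥ x)) := by
    rw [mul_sub, sub_mul, sub_mulVec, hw, zero_sub, dotProduct_neg, Matrix.mul_smul,
      Matrix.smul_mul, smul_mulVec, dotProduct_smul, ← mulVec_mulVec, ← mulVec_mulVec, ← hx,
      dotProduct_mulVec, hwX, vecMulVec_mulVec, dotProduct_smul]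
    simp
  rw [h4] at h2
  have h5 : star x ⬝ᵥ x ≠ 0 := by
    intro h; exact hne (dotProduct_star_self_eq_zero.1 h)
  have h6 : 0 ≤ star x ⬝ᵥ x := dotProduct_star_self_nonneg x
  obtain ⟨r, hr⟩ : ∃ r : ℝ, r = (star x ⬝ᵥ x).re := ⟨_, rfl⟩
  have h7 : star x ⬝ᵥ x = (r : ℂ) := by
    apply Complex.ext
    · rw [hr]; simp
    · rw [← (Complex.le_def.1 h6).2]; simp
  rw [h7] at h2 h5
  have h8 : r ≠ 0 := by
    intro h; rw [h] at h5; simp at h5
  have h9 := (Complex.le_def.1 h2).1
  have h10 : (-(ε : ℂ) * ((r : ℂ) * (r : ℂ))).re = -ε * (r * r) := by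
    have : -(ε : ℂ) * ((r : ℂ) * (r : ℂ)) = ((-ε * (r * r) : ℝ) : ℂ) := by push_cast; ring
    rw [this, Complex.ofReal_re]
  rw [h10] at h9
  have h11 : 0 < r * r := mul_self_pos.2 h8
  have : (0:ℂ).re = 0 := rfl
  rw [this] at h9
  nlinarith [mul_pos hε h11]

theorem no_sep (C : Set (Herm n)) (hC : IsConvexCorner C) (X : Herm n) (hV : IsVertex C X)
    (hX0 : X ≠ 0) (f : Herm n →ₗ[ℝ] ℝ) (hfN : ∀ y ∈ NC C X, f y ≤ 0)
    (hfP : ∀ y ∈ PSD n, 0 ≤ f y) : f = 0 := by
  have hX := hV.1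
  obtain ⟨D, hD⟩ := exists_rep f
  have hDp : D.1.PosSemidef := by
    apply psd_of_trace D.1 (herm_of D)
    intro P hP
    have := hfP ⟨P, hP.isHermitian⟩ hP
    rw [hD] at this
    exact this
  have hcore : ∀ Y : Herm n, (∀ H : Herm n, ∃ ε : ℝ, 0 < ε ∧ Y + ε • H ∈ NC C X) →
      D.1 * Y.1 * X.1 = 0 := by
    intro Y hY
    have hYN : Y ∈ NC C X := by
      obtain ⟨ε, _, h⟩ := hY 0
      simpa using h
    obtain ⟨Z, hZ⟩ := exists_Z X.1 Y.1 (herm_of X) (herm_of Y) (regular C hC X hX Y hY)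
    have hXZX : X.1 * Z * X.1 = X.1 := by
      have h1 : ∀ v : Fin n → ℂ, X.1 *ᵥ ((Z * X.1 - 1) *ᵥ v) = 0 := by
        intro v
        apply regular C hC X hX Y hY
        rw [mulVec_mulVec]
        have : X.1 * Y.1 * X.1 * (Z * X.1 - 1) = 0 := by
          rw [mul_sub, ← mul_assoc, hZ, mul_one, sub_self]
        rw [this, zero_mulVec]
      have h2 : X.1 * (Z * X.1 - 1) = 0 := by
        ext i j
        have := congrFun (h1 (Pi.single j 1)) i
        rw [mulVec_mulVec] at this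
        simpa using this
      rw [mul_sub, mul_one, sub_eq_zero, ← mul_assoc] at h2
      exact h2
    obtain ⟨E, hE⟩ : ∃ E, E = 1 - X.1 * Z := ⟨_, rfl⟩
    have hE1 : E + X.1 * Z = 1 := by rw [hE]; abel
    have hEX : E * X.1 = 0 := by rw [hE, sub_mul, one_mul, hXZX, sub_self]
    have hZ' : Zᴴ * (X.1 * Y.1 * X.1) = Y.1 * X.1 := by
      have := congrArg conjTranspose hZ
      simp only [conjTranspose_mul, (herm_of X).eq, (herm_of Y).eq] at this
      rw [← this]; simp only [mul_assoc]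
    have hEY : Eᴴ * Y.1 * X.1 = 0 := by
      rw [hE, conjTranspose_sub, conjTranspose_one, conjTranspose_mul, (herm_of X).eq, sub_mul,
        sub_mul, one_mul, sub_eq_zero, ← hZ']
      simp only [mul_assoc]
    -- the modified functional
    have hW : Y.1 - Eᴴ * Y.1 * E = Zᴴ * (X.1 * Y.1 * X.1) * Z := by
      have h1 : Eᴴ * Y.1 * E = Eᴴ * Y.1 := by
        have : Eᴴ * Y.1 * E = Eᴴ * Y.1 * (E + X.1 * Z) - Eᴴ * Y.1 * X.1 * Z := by
          rw [mul_add]; simp only [mul_assoc]; abel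
        rw [this, hE1, hEY, mul_one, zero_mul, sub_zero]
      rw [h1, mul_assoc Zᴴ, hZ]
      have h2 : Eᴴ + Zᴴ * X.1 = 1 := by
        have := congrArg conjTranspose hE1
        rw [conjTranspose_add, conjTranspose_mul, (herm_of X).eq, conjTranspose_one] at this
        exact this
      have h3 : (1 : Mat n) - Eᴴ = Zᴴ * X.1 := by rw [← h2]; abel
      calc Y.1 - Eᴴ * Y.1 = (1 - Eᴴ) * Y.1 := by rw [sub_mul, one_mul]
        _ = Zᴴ * (X.1 * Y.1) := by rw [h3, mul_assoc]
    have hWp : (Y.1 - Eᴴ * Y.1 * E).PosSemidef := by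
      rw [hW]
      exact (compress_psd C hC X hX Y hYN).conjTranspose_mul_mul_same Z
    let W : Herm n := ⟨Y.1 - Eᴴ * Y.1 * E, hWp.isHermitian⟩
    have hpW : ∀ A : Herm n, pair A W = pair A Y - (Matrix.trace (E * A.1 * Eᴴ * Y.1)).re := by
      intro A
      have e : pair A W = (Matrix.trace (A.1 * (Y.1 - Eᴴ * Y.1 * E))).re := rfl
      rw [e, mul_sub, Matrix.trace_sub, Complex.sub_re]
      congr 2
      rw [← mul_assoc, Matrix.trace_mul_comm]
      simp only [mul_assoc]
    have hWN : W ∈ NC C X := by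
      intro A hA
      rw [hpW A, hpW X, hEX]
      have := key C hC X hX Y hYN E Z hE1 A hA
      simpa using this
    have hfW : f W = 0 := le_antisymm (hfN W hWN) (hfP W hWp)
    rw [hD] at hfW
    have hDW : D.1 * (Y.1 - Eᴴ * Y.1 * E) = 0 := trace_psd_zero hDp hWp hfW
    have h4 : D.1 * (Y.1 - Eᴴ * Y.1 * E) * X.1 = 0 := by rw [hDW, zero_mul]
    have h5 : (Y.1 - Eᴴ * Y.1 * E) * X.1 = Y.1 * X.1 := by
      rw [sub_mul, mul_assoc (Eᴴ * Y.1), hEX, mul_zero, sub_zero]
    rw [mul_assoc, h5, ← mul_assoc] at h4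
    exact h4
  obtain ⟨Y0, hY0⟩ := core_exists (NC C X) (cone_NC C X) (span_NC C X hV)
  have hY0' : ∀ H : Herm n, ∃ ε : ℝ, 0 < ε ∧ Y0 + ε • H ∈ NC C X := by
    intro H
    obtain ⟨ε, hε, h⟩ := hY0 H
    exact ⟨ε, hε, h ε (by rw [abs_of_pos hε])⟩
  have hN : ∀ Y1 ∈ NC C X, D.1 * Y1.1 * X.1 = 0 := by
    intro Y1 hY1
    have h1 := hcore Y0 hY0'
    have h2 := hcore (Y0 + Y1) (by
      intro H
      obtain ⟨ε, hε, h⟩ := hY0' H
      refine ⟨ε, hε, ?_⟩
      have e : Y0 + Y1 + ε • H = (Y0 + ε • H) + Y1 := by abel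
      rw [e]
      exact (cone_NC C X).add _ h _ hY1)
    have e : (Y0 + Y1).1 = Y0.1 + Y1.1 := rfl
    rw [e, mul_add, add_mul, h1, zero_add] at h2
    exact h2
  have hall : ∀ H : Herm n, D.1 * H.1 * X.1 = 0 := by
    intro H
    have hH : H ∈ Submodule.span ℝ (NC C X) := by rw [span_NC C X hV]; trivial
    induction hH using Submodule.span_induction with
    | mem Y hY => exact hN Y hY
    | zero => simp
    | add Y Z _ _ h1 h2 =>
      have e : (Y + Z).1 = Y.1 + Z.1 := rfl
      rw [e, mul_add, add_mul, h1, h2, add_zero]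
    | smul c Y _ h1 =>
      have e : (c • Y).1 = c • Y.1 := rfl
      rw [e, Matrix.mul_smul, Matrix.smul_mul, h1, smul_zero]
  have hDX : D.1 * X.1 = 0 := by
    have := hall ⟨1, Matrix.isHermitian_one⟩
    simpa using this
  have hXne : ∃ w : Fin n → ℂ, X.1 *ᵥ w ≠ 0 := by
    by_contra hcon
    push Not at hcon
    apply hX0
    apply Subtype.ext
    ext i j
    have := congrFun (hcon (Pi.single j 1)) i
    simpa using this
  obtain ⟨w, hw⟩ := hXne
  obtain ⟨x, hx⟩ : ∃ x, x = X.1 *ᵥ w := ⟨_, rfl⟩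
  rw [← hx] at hw
  have hxx : star x ⬝ᵥ x ≠ 0 := fun h => hw (dotProduct_star_self_eq_zero.1 h)
  have hDx : D.1 *ᵥ x = 0 := by rw [hx, mulVec_mulVec, hDX, zero_mulVec]
  have hDu : ∀ u : Fin n → ℂ, D.1 *ᵥ u = 0 := by
    intro u
    have hherm : (vecMulVec u (star x) + vecMulVec x (star u)).IsHermitian := by
      rw [Matrix.IsHermitian, conjTranspose_add, conjTranspose_vecMulVec, conjTranspose_vecMulVec,
        star_star, star_star, add_comm]
    have h1 := hall ⟨_, hherm⟩
    have h2 : (D.1 * (vecMulVec u (star x) + vecMulVec x (star u)) * X.1) *ᵥ w = 0 := by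
      have : D.1 * (vecMulVec u (star x) + vecMulVec x (star u)) * X.1 = 0 := h1
      rw [this, zero_mulVec]
    rw [← mulVec_mulVec, ← mulVec_mulVec, ← hx, add_mulVec, vecMulVec_mulVec, vecMulVec_mulVec,
      mulVec_add] at h2
    have h3 : D.1 *ᵥ (MulOpposite.op (star u ⬝ᵥ x) • x) = 0 := by
      rw [op_smul_eq_smul, mulVec_smul, hDx, smul_zero]
    rw [h3, add_zero, op_smul_eq_smul, mulVec_smul] at h2
    rcases smul_eq_zero.1 h2 with h | h
    · exact absurd h hxx
    · exact h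
  have hD0 : D = 0 := by
    apply Subtype.ext
    ext i j
    have := congrFun (hDu (Pi.single j 1)) i
    simpa using this
  ext Y
  rw [hD, hD0]
  simp [pair]

/-- the space of Hermitian matrices has real dimension `n ^ 2` -/
theorem finrank_herm : Module.finrank ℝ (Herm n) = n ^ 2 := by
  let Φ : (Herm n × Herm n) →ₗ[ℝ] Mat n :=
    { toFun := fun p => p.1.1 + Complex.I • p.2.1
      map_add' := by
        intro p q
        show (p.1.1 + q.1.1) + Complex.I • (p.2.1 + q.2.1) = _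
        rw [smul_add]; abel
      map_smul' := by
        intro c p
        show c • p.1.1 + Complex.I • (c • p.2.1) = c • (p.1.1 + Complex.I • p.2.1)
        rw [smul_add, smul_comm c Complex.I] }
  have hinj : Function.Injective Φ := by
    rw [← LinearMap.ker_eq_bot, LinearMap.ker_eq_bot']
    rintro ⟨A, B⟩ h
    have h1 : A.1 + Complex.I • B.1 = 0 := h
    have h2 : A.1 - Complex.I • B.1 = 0 := by
      have := congrArg conjTranspose h1
      rw [conjTranspose_add, conjTranspose_smul, (herm_of A).eq, (herm_of B).eq,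
        conjTranspose_zero] at this
      simpa [sub_eq_add_neg] using this
    have hA : A.1 = 0 := by
      have : (2:ℂ) • A.1 = 0 := by
        rw [two_smul]
        calc A.1 + A.1 = (A.1 + Complex.I • B.1) + (A.1 - Complex.I • B.1) := by abel
          _ = 0 := by rw [h1, h2, add_zero]
      exact (smul_eq_zero.1 this).resolve_left two_ne_zero
    have hB : B.1 = 0 := by
      rw [hA, zero_add] at h1
      exact (smul_eq_zero.1 h1).resolve_left Complex.I_ne_zero
    exact Prod.ext (Subtype.ext hA) (Subtype.ext hB)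
  have hsurj : Function.Surjective Φ := by
    intro M
    have hA : ((1/2 : ℂ) • (M + Mᴴ)).IsHermitian := by
      rw [Matrix.IsHermitian, conjTranspose_smul, conjTranspose_add, conjTranspose_conjTranspose,
        add_comm Mᴴ]
      simp
    have hB : ((-Complex.I / 2 : ℂ) • (M - Mᴴ)).IsHermitian := by
      rw [Matrix.IsHermitian, conjTranspose_smul, conjTranspose_sub, conjTranspose_conjTranspose,
        ← neg_sub M Mᴴ, smul_neg, ← neg_smul]
      congr 1
      simp
      ring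
    refine ⟨(⟨_, hA⟩, ⟨_, hB⟩), ?_⟩
    show (1/2 : ℂ) • (M + Mᴴ) + Complex.I • ((-Complex.I / 2 : ℂ) • (M - Mᴴ)) = M
    rw [smul_smul]
    have : Complex.I * (-Complex.I / 2) = 1 / 2 := by
      have := Complex.I_mul_I
      linear_combination (-1/2) * this
    rw [this]
    module
  have e := (LinearEquiv.ofBijective Φ ⟨hinj, hsurj⟩).finrank_eq
  rw [Module.finrank_prod] at e
  have e2 : Module.finrank ℝ (Mat n) = n * n * 2 := by
    rw [Module.finrank_matrix]
    simp
  rw [e2] at e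
  nlinarith

theorem result (n : ℕ) (C : Set (Herm n)) (hC : IsConvexCorner C) (X : Herm n)
    (hV : IsVertex C X) (hX0 : X ≠ 0) :
    IsFacet (antiBlocker C) {Z | Z ∈ antiBlocker C ∧ pair X Z = 1} := by
  have hX := hV.1
  have hXp : X.1.PosSemidef := hC.psd hX
  obtain ⟨Y, hYN, hYP⟩ := sep (NC C X) (PSD n) (cone_NC C X) cone_psd (span_NC C X hV) span_psd
    (no_sep C hC X hV hX0)
  have hXX : 0 < pair X X := by
    have h1 : 0 ≤ pair X X := trace_psd hXp hXp
    rcases h1.lt_or_eq with h | h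
    · exact h
    · exact absurd (pair_self_eq_zero X h.symm) hX0
  have hτ : 0 < pair X Y := by
    obtain ⟨ε, hε, h⟩ := hYP X
    have h1 := h (-ε) (by rw [abs_neg, abs_of_pos hε])
    have h2 : 0 ≤ pair X (Y + (-ε) • X) := trace_psd hXp h1
    rw [pair_add_right, pair_smul_right] at h2
    nlinarith [mul_pos hε hXX]
  have hF : ∀ W : Herm n, W ∈ NC C X → W ∈ PSD n → pair X W = pair X Y →
      (pair X Y)⁻¹ • W ∈ {Z | Z ∈ antiBlocker C ∧ pair X Z = 1} := by
    intro W h1 h2 h3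
    refine ⟨⟨psd_smul h2 (inv_pos.2 hτ).le, fun A hA => ?_⟩, ?_⟩
    · rw [pair_smul_right]
      have := h1 A hA
      rw [h3] at this
      rw [inv_mul_le_iff₀ hτ]
      linarith
    · rw [pair_smul_right, h3, inv_mul_cancel₀ hτ.ne']
  have hYN' : Y ∈ NC C X := by
    obtain ⟨ε, hε, h⟩ := hYN 0
    have := h 0 (by simp [hε.le])
    simpa using this
  have hYP' : Y ∈ PSD n := by
    obtain ⟨ε, hε, h⟩ := hYP 0
    have := h 0 (by simp [hε.le])
    simpa using this
  have hspan : vectorSpan ℝ {Z | Z ∈ antiBlocker C ∧ pair X Z = 1} =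
      LinearMap.ker (pairL X) := by
    apply le_antisymm
    · rw [vectorSpan, Submodule.span_le]
      rintro _ ⟨Z1, h1, Z2, h2, rfl⟩
      show pair X (Z1 - Z2) = 0
      rw [pair_sub_right, h1.2, h2.2, sub_self]
    · intro H hH
      have hH' : pair X H = 0 := hH
      obtain ⟨ε1, hε1, g1⟩ := hYN H
      obtain ⟨ε2, hε2, g2⟩ := hYP H
      obtain ⟨ε, hε⟩ : ∃ ε, ε = min ε1 ε2 := ⟨_, rfl⟩
      have hε0 : 0 < ε := by rw [hε]; exact lt_min hε1 hε2
      have k1 := g1 ε (by rw [abs_of_pos hε0, hε]; exact min_le_left _ _)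
      have k2 := g2 ε (by rw [abs_of_pos hε0, hε]; exact min_le_right _ _)
      have m1 := hF _ k1 k2 (by rw [pair_add_right, pair_smul_right, hH', mul_zero, add_zero])
      have m2 := hF _ hYN' hYP' rfl
      have m3 := vsub_mem_vectorSpan ℝ m1 m2
      have e : (pair X Y)⁻¹ • (Y + ε • H) -ᵥ (pair X Y)⁻¹ • Y = ((pair X Y)⁻¹ * ε) • H := by
        rw [vsub_eq_sub, smul_add, smul_smul]; abel
      rw [e] at m3
      have hc : (pair X Y)⁻¹ * ε ≠ 0 := mul_ne_zero (inv_ne_zero hτ.ne') hε0.ne'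
      have := Submodule.smul_mem _ ((pair X Y)⁻¹ * ε)⁻¹ m3
      rwa [smul_smul, inv_mul_cancel₀ hc, one_smul] at this
  refine ⟨⟨_, hF Y hYN' hYP' rfl⟩, ⟨X, 1, ⟨hX0, ?_, ?_⟩, ?_⟩, ?_, ?_⟩
  · intro Z hZ
    rw [pair_comm]; exact hZ.2 X hX
  · rintro Z ⟨_, hZ⟩
    rw [pair_comm]; exact hZ
  · ext Z
    constructor
    · rintro ⟨h1, h2⟩
      exact ⟨h1, by show pair Z X = 1; rw [pair_comm]; exact h2⟩
    · rintro ⟨h1, h2⟩
      exact ⟨h1, by rw [pair_comm]; exact h2⟩
  · rintro Z ⟨h1, h2⟩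
    refine ⟨subset_closure h1, fun hint => ?_⟩
    have hc : ContinuousAt (fun t : ℝ => t • Z) 1 := by fun_prop
    have h3 : interior (antiBlocker C) ∈ 𝓝 ((fun t : ℝ => t • Z) 1) := by
      simp only [one_smul]
      exact isOpen_interior.mem_nhds hint
    have h4 := hc.preimage_mem_nhds h3
    rw [Metric.mem_nhds_iff] at h4
    obtain ⟨ε, hε, h⟩ := h4
    have h5 : (1 + ε / 2) ∈ Metric.ball (1:ℝ) ε := by
      rw [Metric.mem_ball, Real.dist_eq]
      have : |1 + ε / 2 - 1| = ε / 2 := by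
        rw [add_sub_cancel_left, abs_of_pos (by positivity)]
      rw [this]; linarith
    have h6 := interior_subset (h h5)
    have h7 : pair X ((1 + ε / 2) • Z) ≤ 1 := h6.2 X hX
    rw [pair_smul_right, h2] at h7
    linarith
  · rw [hspan]
    have h1 := LinearMap.finrank_range_add_finrank_ker (pairL X)
    have h2 : LinearMap.range (pairL X) = ⊤ := by
      rw [LinearMap.range_eq_top]
      apply LinearMap.surjective
      intro h
      have := LinearMap.congr_fun h X
      exact hXX.ne' this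
    rw [h2, finrank_top, Module.finrank_self, finrank_herm] at h1
    omega

end Pool.Agent.Results.MP_59e64e_co.VertexFacet
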